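import Pool.Agent.Y315.OP.Stm

/-! The weak gradient of the square. -/

set_option autoImplicit false

open MeasureTheory Filter Topology
open scoped ContDiff ENNReal

namespace Pool.Agent.Y26.OP.SQ

open Pool.Agent.Y315.OP

variable {d : ℕ}

theorem cs {f h : E d → ℝ} (hf : AEStronglyMeasurable f) (hh : AEStronglyMeasurable h) :
    ∫⁻ x, ‖f x‖ₑ * ‖h x‖ₑ ≤ Y315.OP.sq f ^ (1 / 2 : ℝ) * Y315.OP.sq h ^ (1 / 2 : ℝ) := by
  have := ENNReal.lintegral_mul_le_Lp_mul_Lq (volume : Measure (E d)) Real.HolderConjugate.two_two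
    hf.enorm hh.enorm
  simp only [ENNReal.rpow_two] at this
  exact this

theorem en_inner (x v : E d) : ‖(inner ℝ x v : ℝ)‖ₑ ≤ ‖v‖ₑ * ‖x‖ₑ := by
  rw [← ofReal_norm, ← ofReal_norm, ← ofReal_norm, ← ENNReal.ofReal_mul (norm_nonneg _)]
  exact ENNReal.ofReal_le_ofReal (by rw [mul_comm]; exact norm_inner_le_norm _ _)

theorem memLp_two {f : E d → ℝ} (hf : AEStronglyMeasurable f) (h : Y315.OP.sq f < ⊤) : MemLp f 2 := by
  refine ⟨hf, ?_⟩
  rw [eLpNorm_lt_top_iff_lintegral_rpow_enorm_lt_top (by norm_num) (by norm_num)]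
  simp only [ENNReal.toReal_ofNat, ENNReal.rpow_two]
  exact h

theorem sq_lt {f : E d → ℝ} (hf : MemLp f 2) : Y315.OP.sq f < ⊤ := by
  have := (eLpNorm_lt_top_iff_lintegral_rpow_enorm_lt_top (by norm_num) (by norm_num)).1 hf.2
  simp only [ENNReal.toReal_ofNat, ENNReal.rpow_two] at this
  exact this

theorem sqv_lt {f : E d → E d} (hf : MemLp f 2) : ∫⁻ x, ‖f x‖ₑ ^ 2 < ⊤ := by
  have := (eLpNorm_lt_top_iff_lintegral_rpow_enorm_lt_top (by norm_num) (by norm_num)).1 hf.2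
  simp only [ENNReal.toReal_ofNat, ENNReal.rpow_two] at this
  exact this

theorem int3 {f h a : E d → ℝ} {A : ℝ} (hf : MemLp f 2) (hh : MemLp h 2) (ha : Continuous a)
    (hA : ∀ x, ‖a x‖ ≤ A) : Integrable (fun x => f x * h x * a x) := by
  have h1 : Integrable (fun x => f x * h x) := hf.integrable_mul hh
  exact h1.mul_bdd ha.aestronglyMeasurable (Eventually.of_forall hA)

theorem lim {f h a : E d → ℝ} {fn hn : ℕ → E d → ℝ} {A : ℝ} {B : ℝ≥0∞} (hf : MemLp f 2)
    (hh : MemLp h 2) (hfn : ∀ n, MemLp (fn n) 2) (hhn : ∀ n, MemLp (hn n) 2) (ha : Continuous a)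
    (hA : ∀ x, ‖a x‖ ≤ A) (hB : ∀ n, Y315.OP.sq (hn n) ≤ B) (hB' : B ≠ ⊤)
    (t1 : Tendsto (fun n => Y315.OP.sq (fun x => fn n x - f x)) atTop (𝓝 0))
    (t2 : Tendsto (fun n => Y315.OP.sq (fun x => hn n x - h x)) atTop (𝓝 0)) :
    Tendsto (fun n => ∫ x, fn n x * hn n x * a x) atTop (𝓝 (∫ x, f x * h x * a x)) := by
  have h0 := int3 hf hh ha hA
  refine tendsto_integral_of_L1 _ h0.1 (Eventually.of_forall fun n =>
    int3 (hfn n) (hhn n) ha hA) ?_
  have hA0 : ∀ x, ‖a x‖ₑ ≤ ENNReal.ofReal A := fun x => by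
    rw [← ofReal_norm]; exact ENNReal.ofReal_le_ofReal (hA x)
  have key : ∀ n, ∫⁻ x, ‖fn n x * hn n x * a x - f x * h x * a x‖ₑ ≤
      ENNReal.ofReal A * (Y315.OP.sq (fun x => fn n x - f x) ^ (1 / 2 : ℝ) * B ^ (1 / 2 : ℝ) +
        Y315.OP.sq f ^ (1 / 2 : ℝ) * Y315.OP.sq (fun x => hn n x - h x) ^ (1 / 2 : ℝ)) := by
    intro n
    have m1 : AEStronglyMeasurable (fun x => fn n x - f x) := (hfn n).1.sub hf.1
    have m2 : AEStronglyMeasurable (fun x => hn n x - h x) := (hhn n).1.sub hh.1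
    calc ∫⁻ x, ‖fn n x * hn n x * a x - f x * h x * a x‖ₑ
        ≤ ∫⁻ x, ENNReal.ofReal A * (‖fn n x - f x‖ₑ * ‖hn n x‖ₑ + ‖f x‖ₑ * ‖hn n x - h x‖ₑ) := by
          refine lintegral_mono fun x => ?_
          have e : fn n x * hn n x * a x - f x * h x * a x =
              a x * ((fn n x - f x) * hn n x + f x * (hn n x - h x)) := by ring
          simp only
          rw [e, enorm_mul]
          refine mul_le_mul' (hA0 x) ?_
          refine (enorm_add_le _ _).trans ?_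
          rw [enorm_mul, enorm_mul]
      _ = ENNReal.ofReal A * (∫⁻ x, ‖fn n x - f x‖ₑ * ‖hn n x‖ₑ + ‖f x‖ₑ * ‖hn n x - h x‖ₑ) := by
          rw [lintegral_const_mul' _ _ ENNReal.ofReal_ne_top]
      _ = ENNReal.ofReal A * ((∫⁻ x, ‖fn n x - f x‖ₑ * ‖hn n x‖ₑ) +
          ∫⁻ x, ‖f x‖ₑ * ‖hn n x - h x‖ₑ) := by
          rw [lintegral_add_left' (f := fun x => ‖fn n x - f x‖ₑ * ‖hn n x‖ₑ)
            (m1.enorm.mul (hhn n).1.enorm)]
      _ ≤ _ := by
          refine mul_le_mul' le_rfl (add_le_add ?_ (cs hf.1 m2))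
          refine (cs m1 (hhn n).1).trans (mul_le_mul' le_rfl ?_)
          exact ENNReal.rpow_le_rpow (hB n) (by norm_num)
  have hlim : Tendsto (fun n => ENNReal.ofReal A *
      (Y315.OP.sq (fun x => fn n x - f x) ^ (1 / 2 : ℝ) * B ^ (1 / 2 : ℝ) +
        Y315.OP.sq f ^ (1 / 2 : ℝ) * Y315.OP.sq (fun x => hn n x - h x) ^ (1 / 2 : ℝ))) atTop (𝓝 0) := by
    have hpow : ∀ {s : ℕ → ℝ≥0∞}, Tendsto s atTop (𝓝 0) →
        Tendsto (fun n => s n ^ (1 / 2 : ℝ)) atTop (𝓝 0) := by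
      intro s hs
      have := (ENNReal.continuous_rpow_const (y := (1 / 2 : ℝ))).tendsto 0
      rw [ENNReal.zero_rpow_of_pos (by norm_num)] at this
      exact this.comp hs
    have s1 := ENNReal.Tendsto.mul_const (hpow t1) (b := B ^ (1 / 2 : ℝ))
      (Or.inr (ENNReal.rpow_ne_top_of_nonneg (by norm_num) hB'))
    have s2 := ENNReal.Tendsto.const_mul (hpow t2) (a := Y315.OP.sq f ^ (1 / 2 : ℝ))
      (Or.inr (ENNReal.rpow_ne_top_of_nonneg (by norm_num) (sq_lt hf).ne))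
    rw [zero_mul] at s1
    rw [mul_zero] at s2
    have s3 := s1.add s2
    rw [add_zero] at s3
    have s4 := ENNReal.Tendsto.const_mul s3 (a := ENNReal.ofReal A) (Or.inr ENNReal.ofReal_ne_top)
    rw [mul_zero] at s4
    exact s4
  exact tendsto_of_tendsto_of_tendsto_of_le_of_le tendsto_const_nhds hlim
    (fun n => zero_le) key

theorem square (h1 : S_MOL) (h2 : S_CONV) : S_SQ := by
  intro d u g hd hu hg hw θ hθ v
  obtain ⟨hex, hconv⟩ := h2 d hd
  have hr : ∀ n : ℕ, (0 : ℝ) < 1 / ((n : ℝ) + 1) := fun n => by positivity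
  choose χ hχ using fun n : ℕ => hex (1 / ((n : ℝ) + 1)) (hr n)
  obtain ⟨c1, c2⟩ := hconv (fun n : ℕ => 1 / ((n : ℝ) + 1)) χ
    tendsto_one_div_add_atTop_nhds_zero_nat hχ
  have t1 := c1 u hu
  have t2 := c2 g hg
  have hcd : ∀ n, ContDiff ℝ ∞ (mol (χ n) u) := fun n => by
    obtain ⟨C, _, hC⟩ := h1 d (χ n) (hχ n).tf
    exact (hC u hu).1
  have hfd : ∀ n x, fderiv ℝ (mol (χ n) u) x v = inner ℝ (molg (χ n) g x) v := fun n x => by
    obtain ⟨C, _, hC⟩ := h1 d (χ n) (hχ n).tf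
    exact (hC u hu).2.2.2.1 g hg hw x v
  have hsq : ∀ n, Y315.OP.sq (mol (χ n) u) ≤ Y315.OP.sq u := fun n => by
    obtain ⟨C, _, hC⟩ := h1 d (χ n) (hχ n).tf
    exact (hC u hu).2.2.2.2.1 _ (hχ n)
  have hsg : ∀ n, ∫⁻ x, ‖molg (χ n) g x‖ₑ ^ 2 ≤ ∫⁻ x, ‖g x‖ₑ ^ 2 := fun n => by
    obtain ⟨C, _, hC⟩ := h1 d (χ n) (hχ n).tf
    exact (hC u hu).2.2.2.2.2 _ g (hχ n) hg
  set w : ℕ → E d → ℝ := fun n => mol (χ n) u with hwdef
  set p : ℕ → E d → ℝ := fun n x => inner ℝ (molg (χ n) g x) v with hp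
  set p0 : E d → ℝ := fun x => inner ℝ (g x) v with hp0
  have hpf : ∀ n, p n = fun x => fderiv ℝ (w n) x v := fun n => funext fun x => (hfd n x).symm
  have hwm : ∀ n, MemLp (w n) 2 := fun n =>
    memLp_two (hcd n).continuous.aestronglyMeasurable ((hsq n).trans_lt (sq_lt hu))
  have hpc : ∀ n, Continuous (p n) := fun n => by
    rw [hpf n]
    exact ((hcd n).continuous_fderiv (by simp)).clm_apply continuous_const
  have hpB : ∀ n, Y315.OP.sq (p n) ≤ ‖v‖ₑ ^ 2 * ∫⁻ x, ‖g x‖ₑ ^ 2 := fun n => by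
    refine le_trans ?_ (mul_le_mul' le_rfl (hsg n))
    rw [← lintegral_const_mul' _ _ (by finiteness)]
    refine lintegral_mono fun x => ?_
    simp only [hp]
    rw [← mul_pow]
    refine pow_le_pow_left' ?_ 2
    exact en_inner _ _
  have hBt : ‖v‖ₑ ^ 2 * ∫⁻ x, ‖g x‖ₑ ^ 2 ≠ ⊤ :=
    ENNReal.mul_ne_top (by finiteness) (sqv_lt hg).ne
  have hpm : ∀ n, MemLp (p n) 2 := fun n =>
    memLp_two (hpc n).aestronglyMeasurable ((hpB n).trans_lt (lt_top_iff_ne_top.2 hBt))
  have hp0m : MemLp p0 2 := by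
    refine memLp_two (hg.1.inner aestronglyMeasurable_const) (lt_of_le_of_lt ?_
      (lt_top_iff_ne_top.2 hBt))
    rw [← lintegral_const_mul' _ _ (by finiteness)]
    refine lintegral_mono fun x => ?_
    simp only [hp0]
    rw [← mul_pow]
    refine pow_le_pow_left' ?_ 2
    exact en_inner _ _
  have t3 : Tendsto (fun n => Y315.OP.sq (fun x => p n x - p0 x)) atTop (𝓝 0) := by
    have s := ENNReal.Tendsto.const_mul t2 (a := ‖v‖ₑ ^ 2) (Or.inr (by finiteness))
    rw [mul_zero] at s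
    refine tendsto_of_tendsto_of_tendsto_of_le_of_le tendsto_const_nhds s
      (fun n => zero_le) fun n => ?_
    simp only
    rw [← lintegral_const_mul' _ _ (by finiteness)]
    refine lintegral_mono fun x => ?_
    simp only [hp, hp0]
    rw [← inner_sub_left, ← mul_pow]
    refine pow_le_pow_left' ?_ 2
    exact en_inner _ _
  -- the test function
  have hθc := hθ.1.continuous
  have hθd : Continuous (fun x => fderiv ℝ θ x v) :=
    (hθ.1.continuous_fderiv (by simp)).clm_apply continuous_const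
  have hθs : HasCompactSupport (fun x => fderiv ℝ θ x v) := by
    have := hθ.2.fderiv (𝕜 := ℝ)
    exact this.comp_left (g := fun L : E d →L[ℝ] ℝ => L v) (by simp)
  obtain ⟨A1, hA1⟩ := hθd.bounded_above_of_compact_support hθs
  have hθ2c : Continuous (fun x => 2 * θ x) := continuous_const.mul hθc
  have hθ2s : HasCompactSupport (fun x => 2 * θ x) := hθ.2.mul_left
  obtain ⟨A2, hA2⟩ := hθ2c.bounded_above_of_compact_support hθ2s
  have l1 := lim hu hu hwm hwm hθd hA1 hsq (sq_lt hu).ne t1 t1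
  have l2 := lim hu hp0m hwm hpm hθ2c hA2 hpB hBt t1 t3
  -- integration by parts
  have ibp : ∀ n, ∫ x, w n x * w n x * fderiv ℝ θ x v = - ∫ x, w n x * p n x * (2 * θ x) := by
    intro n
    have hwd : Differentiable ℝ (w n) := (hcd n).differentiable (by simp)
    have hθdiff : Differentiable ℝ θ := hθ.1.differentiable (by simp)
    have hfd2 : ∀ x, fderiv ℝ (fun x => w n x * w n x) x v = 2 * (w n x * p n x) := by
      intro x
      rw [fderiv_fun_mul (hwd x) (hwd x)]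
      have : p n x = fderiv ℝ (w n) x v := congrFun (hpf n) x
      rw [this]
      simp only [add_apply, smul_apply, smul_eq_mul]
      ring
    have hwc : Continuous (w n) := (hcd n).continuous
    have i1 : Integrable (fun x => fderiv ℝ (fun x => w n x * w n x) x v * θ x) := by
      simp only [hfd2]
      have hc : Continuous (fun x => 2 * (w n x * p n x) * θ x) :=
        (continuous_const.mul (hwc.mul (hpc n))).mul hθc
      exact hc.integrable_of_hasCompactSupport hθ.2.mul_left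
    have i2 : Integrable (fun x => w n x * w n x * fderiv ℝ θ x v) :=
      ((hwc.mul hwc).mul hθd).integrable_of_hasCompactSupport hθs.mul_left
    have i3 : Integrable (fun x => w n x * w n x * θ x) :=
      ((hwc.mul hwc).mul hθc).integrable_of_hasCompactSupport hθ.2.mul_left
    have := integral_mul_fderiv_eq_neg_fderiv_mul_of_integrable
      (μ := (volume : Measure (E d))) (f := fun x => w n x * w n x) (g := θ) (v := v) i1 i2 i3
      (fun x _ => (hwd x).mul (hwd x)) (fun x _ => hθdiff x)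
    rw [this]
    congr 1
    refine integral_congr_ae (Eventually.of_forall fun x => ?_)
    simp only
    rw [hfd2]
    ring
  have l3 : Tendsto (fun n => ∫ x, w n x * w n x * fderiv ℝ θ x v) atTop
      (𝓝 (- ∫ x, u x * p0 x * (2 * θ x))) := by
    simp only [ibp]
    exact l2.neg
  have hfin := tendsto_nhds_unique l1 l3
  have e1 : ∫ x, u x ^ 2 * fderiv ℝ θ x v = ∫ x, u x * u x * fderiv ℝ θ x v :=
    integral_congr_ae (Eventually.of_forall fun x => by simp only; ring)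
  have e2 : ∫ x, 2 * (u x * inner ℝ (g x) v) * θ x = ∫ x, u x * p0 x * (2 * θ x) :=
    integral_congr_ae (Eventually.of_forall fun x => by simp only [hp0]; ring)
  rw [e1, e2]
  exact hfin

end Pool.Agent.Y26.OP.SQ
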